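import Pool.Agent.H647R2.TauMain

/-!
# The topological stability conjecture for good pseudotypes fails

`T` is the theory of a generic function `h : B × Q → D` (three sorts), where `D` is an infinite set
with infinitely many distinct named elements `c_k`.  A countable model of `T` is determined by the
number of unnamed elements of `D`, so `T` has at most countably many countable models.
`Φ(x)` is the formula saying that `x` is in the sort `Q` (`T ↾ Φ` is the theory of an infinite set without
structure), `M` is a countable model in which `D` has infinitely many unnamed elements, and
`p = tp(b/Q)` for an element `b` of the sort `B` of `M`.  The type `p` is realized in `M` itself, so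
it is good, but for every finite `a ⊆ Q` the class `p/∼ₐ` is meager in its closure.
The definitions are in `Pool/Agent/H647R2/TauDefs.lean`.
-/

set_option autoImplicit false

namespace Pool.Agent.Results.MP_972fd8_lc.TauStabilityFails

open Pool.Agent.H647R2.Tau FirstOrder FirstOrder.Language

/-- There are a complete theory `T` in a countable language with at most `ℵ₀` countable models, a
countable disjunction `Φ` of partial types over `∅`, a countable model `M` of `T` and a good type
`p ∈ S(Q)`, `Q = Φ(M)`, which is not tau-stable. -/
theorem result : ∃ (L : FirstOrder.Language.{0, 0}) (T : L.Theory)
    (Φ : ℕ → Set (L.Formula (Fin 1))) (M : Theory.ModelType.{0, 0, 0} T) (n : ℕ)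
    (p : TypeOver L (solutionSet Φ M) n),
    Countable L.Symbols ∧ T.IsComplete ∧ numCountableModels T ≤ Cardinal.aleph0 ∧ Countable M ∧
      Good Φ p ∧ ¬ TauStable p :=
  counterexample

end Pool.Agent.Results.MP_972fd8_lc.TauStabilityFails
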